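import Pool.Agent.Lib.MP_70b928_gt.Example

set_option autoImplicit false

open Pool.Agent.Lib.MP_70b928_gt

namespace Pool.Agent.Results.MP_70b928_gt.BreadthFormula

/-- The exact breadth of the Kauffman bracket of every diagram of the question, and a diagram of the
question (with `g = 2`) on which the formula without the last term fails. -/
theorem result :
    (∀ (g : ℕ) (D : Diagram g), Connected D → Alternating D → (∀ t, ¬ Excluded D t) →
      FillsHoles D → ModTwoTrivial D →
      (∃! f, IsBracket D f) ∧ ∀ f, IsBracket D f → f ≠ 0 ∧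
        breadth f = 4 * (crossings D : ℤ) + 4 - 4 * g - 4 * twoExternal D - 4 * twiceExternal D) ∧
    (∃ D : Diagram 2, Connected D ∧ Alternating D ∧ (∀ t, ¬ Excluded D t) ∧
      FillsHoles D ∧ ModTwoTrivial D ∧
      ∀ f, IsBracket D f → breadth f ≠ 4 * (crossings D : ℤ) + 4 - 4 * 2 - 4 * twoExternal D) := by
  refine ⟨fun g D h1 h2 h3 h4 h5 => ⟨⟨Zs D.word, (isBracket_iff D _).mpr rfl,
    fun f hf => (isBracket_iff D f).mp hf⟩, fun f hf => ?_⟩,
    exD, ex_connected, ex_alternating, ex_not_excluded, ex_fills, ex_modTwo, fun f hf => ?_⟩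
  · rw [(isBracket_iff D f).mp hf]
    exact D.breadth_Zs h1 h2 h3 h4 h5
  · rw [(isBracket_iff exD f).mp hf,
      (exD.breadth_Zs ex_connected ex_alternating ex_not_excluded ex_fills ex_modTwo).2]
    have := ex_twice
    omega

end Pool.Agent.Results.MP_70b928_gt.BreadthFormula
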